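import Pool.Agent.helper47.MSW.SpecB
import Pool.Agent.helper47.MSW.SpecC

set_option autoImplicit false

namespace Pool.Agent.MSW

open Equiv Finset Function MeasureTheory Pool.Agent.helper48.PP
open Pool.Agent.DSW (Pr Has GP wt)
open scoped ENNReal Classical

noncomputable section

theorem RTU_split (s : ℕ) (ε : Bool) (X Y : List Pat) :
    X ++ Blk s ε ++ Y = (X ++ Iz s) ++ [sw ε] ++ (Iz s ++ Y) := by
  unfold Blk
  simp only [List.append_assoc]

theorem RTU_rev (s : ℕ) (Y : List Pat) : (Iz s ++ Y).reverse = Y.reverse ++ Iz s := by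
  rw [List.reverse_append]
  congr 1
  unfold Iz
  exact List.reverse_replicate

theorem RTU_app {M : ℕ} {X Y : List Pat} (hX : Adm M X) (hY : Adm M Y) : Adm M (X ++ Y) := by
  intro b hb
  rcases List.mem_append.1 hb with h | h
  · exact hX b h
  · exact hY b h

theorem RTU_err (t : ℝ) (h0 : 0 ≤ t) (h1 : t ≤ 1) (a b c d : ℝ≥0∞)
    (h2 : c ≤ ENNReal.ofReal t * a) (h3 : d ≤ ENNReal.ofReal t * b) :
    c * b + a * d + c * d ≤ ENNReal.ofReal (3 * t) * (a * b) := by
  have ht : ENNReal.ofReal t ≤ 1 := ENNReal.ofReal_le_one.2 h1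
  have e1 : c * b ≤ ENNReal.ofReal t * (a * b) := by
    calc c * b ≤ ENNReal.ofReal t * a * b := by gcongr
      _ = ENNReal.ofReal t * (a * b) := by ring
  have e2 : a * d ≤ ENNReal.ofReal t * (a * b) := by
    calc a * d ≤ a * (ENNReal.ofReal t * b) := by gcongr
      _ = ENNReal.ofReal t * (a * b) := by ring
  have e3 : c * d ≤ ENNReal.ofReal t * (a * b) := by
    calc c * d ≤ (ENNReal.ofReal t * a) * (ENNReal.ofReal t * b) := by gcongr
      _ = ENNReal.ofReal t * (ENNReal.ofReal t * (a * b)) := by ring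
      _ ≤ 1 * (ENNReal.ofReal t * (a * b)) := by gcongr
      _ = ENNReal.ofReal t * (a * b) := one_mul _
  have e4 : ENNReal.ofReal (3 * t) = 3 * ENNReal.ofReal t := by
    rw [ENNReal.ofReal_mul (by norm_num)]
    norm_num
  calc c * b + a * d + c * d
      ≤ ENNReal.ofReal t * (a * b) + ENNReal.ofReal t * (a * b) + ENNReal.ofReal t * (a * b) :=
        add_le_add (add_le_add e1 e2) e3
    _ = ENNReal.ofReal (3 * t) * (a * b) := by rw [e4]; ring

theorem RTU (hSWU : SWU_stmt) (hINU : INU_stmt) (hZLO : ZLO_stmt) (hRCZ : RCZ_stmt)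
    (hPTD : PTD_stmt) : RTU_stmt := by
  intro s M hM hsM
  obtain ⟨K, θ1, hK, h1, h1', hI⟩ := hINU M s hsM
  obtain ⟨θ2, h2, h2', hZ⟩ := hZLO M (by omega)
  refine ⟨1024 * (3 * K) * (648 * 1024), min θ1 (min θ2 (1 / K)), by positivity,
    lt_min h1 (lt_min h2 (by positivity)), (min_le_left _ _).trans h1', ?_⟩
  intro θ H X Y hθ hθ0 hMH hX hY
  have hθ1 : θ ≤ θ1 := hθ0.trans (min_le_left _ _)
  have hθ2 : θ ≤ θ2 := hθ0.trans ((min_le_right _ _).trans (min_le_left _ _))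
  have hθK : θ ≤ 1 / K := hθ0.trans ((min_le_right _ _).trans (min_le_right _ _))
  have hθone : θ ≤ 1 := hθ1.trans h1'
  have hIz : Adm M (Iz s) := hRCZ.2.1 s M hsM
  have hX' : Adm M (X ++ Iz s) := RTU_app hX hIz
  have hY' : Adm M (Iz s ++ Y) := RTU_app hIz hY
  rw [RTU_split s true X Y, RTU_split s false X Y]
  have hA := hSWU θ H (X ++ Iz s) (Iz s ++ Y) hθ.le hθone (by omega) (fun b hb => (hY' b hb).2)
  set t : ℝ := K * θ ^ (s + 1) with ht
  have ht0 : 0 ≤ t := by positivity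
  have ht1 : t ≤ 1 := by
    have h3 : θ ^ (s + 1) ≤ θ := by
      calc θ ^ (s + 1) = θ ^ s * θ := pow_succ _ _
        _ ≤ 1 * θ := mul_le_mul_of_nonneg_right (pow_le_one₀ hθ.le hθone) hθ.le
        _ = θ := one_mul θ
    calc t ≤ K * θ := mul_le_mul_of_nonneg_left h3 hK.le
      _ ≤ K * (1 / K) := mul_le_mul_of_nonneg_left hθK hK.le
      _ = 1 := by field_simp
  have hB := hI θ H X hθ hθ1 hMH (fun b hb => (hX b hb).1)
  have hC := hI θ H Y.reverse hθ hθ1 hMH (fun b hb => (hY b (List.mem_reverse.1 hb)).1)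
  rw [← RTU_rev] at hC
  have hE : ER H (den θ H) (X ++ Iz s) (Iz s ++ Y) ≤ ENNReal.ofReal (3 * t) *
      (A1 H (den θ H) (X ++ Iz s) * A1 H (den θ H) (Iz s ++ Y).reverse) :=
    RTU_err t ht0 ht1 _ _ _ _ hB hC
  have htl : tl [sw false] = 2 := rfl
  have hD := hZ θ H (X ++ Iz s) [sw false] (Iz s ++ Y) hθ hθ2 hMH (by rw [htl]; norm_num)
    (by rw [htl]; omega) hX' hY'
  rw [htl] at hD
  set a := A1 H (den θ H) (X ++ Iz s) * A1 H (den θ H) (Iz s ++ Y).reverse with ha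
  set z := Z H (den θ H) (X ++ Iz s ++ [sw false] ++ (Iz s ++ Y)) with hz
  have key : ENNReal.ofReal (1024 * θ ^ 2) * (ENNReal.ofReal (3 * t) * a) ≤
      ENNReal.ofReal (1024 * (3 * K) * (648 * 1024) * θ ^ (s + 1)) * z := by
    have e1 : 1024 * θ ^ 2 * (3 * t) = 1024 * (3 * K) * (648 * 1024) * θ ^ (s + 1) *
        (1 / 648 * (θ / (8 * ((2 : ℕ) : ℝ) ^ 2)) ^ 2) := by
      rw [ht]
      push_cast
      ring
    calc ENNReal.ofReal (1024 * θ ^ 2) * (ENNReal.ofReal (3 * t) * a)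
        = ENNReal.ofReal (1024 * θ ^ 2 * (3 * t)) * a := by
          rw [← mul_assoc, ← ENNReal.ofReal_mul (by positivity : (0 : ℝ) ≤ 1024 * θ ^ 2)]
      _ = ENNReal.ofReal (1024 * (3 * K) * (648 * 1024) * θ ^ (s + 1)) *
          (ENNReal.ofReal (1 / 648 * (θ / (8 * ((2 : ℕ) : ℝ) ^ 2)) ^ 2) * a) := by
          rw [e1, ENNReal.ofReal_mul
            (by positivity : (0 : ℝ) ≤ 1024 * (3 * K) * (648 * 1024) * θ ^ (s + 1))]
          exact mul_assoc _ _ _
      _ ≤ ENNReal.ofReal (1024 * (3 * K) * (648 * 1024) * θ ^ (s + 1)) * z := by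
          gcongr
  have hfin : ENNReal.ofReal (1024 * θ ^ 2) * ER H (den θ H) (X ++ Iz s) (Iz s ++ Y) ≤
      ENNReal.ofReal (1024 * (3 * K) * (648 * 1024) * θ ^ (s + 1)) * z :=
    (mul_le_mul_right hE _).trans key
  rw [ENNReal.ofReal_add zero_le_one (by positivity), ENNReal.ofReal_one, add_mul, one_mul]
  exact hA.trans (add_le_add le_rfl hfin)

end

end Pool.Agent.MSW
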